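import Pool.Agent.MP_d5eec5_gt.H77.KSpec

/-! Counting interleaved labels. -/

set_option autoImplicit false

namespace Pool.Agent.MP_d5eec5_gt.H77

open Finset List

namespace IntL

theorem pc_append (a b : ℕ) (l₁ l₂ : List ℕ) :
    pc a b (l₁ ++ l₂) = pc a b l₁ + pc a b l₂ + l₁.count a * l₂.count b := by
  induction l₁ with
  | nil => simp [pc]
  | cons x l ih => by_cases h : x = a <;> simp [pc, ih, h] <;> ring

theorem pc_add {a b : ℕ} (h : a ≠ b) (l : List ℕ) :
    pc a b l + pc b a l = l.count a * l.count b := by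
  induction l with
  | nil => simp [pc]
  | cons x l ih =>
    by_cases h1 : x = a
    · subst h1
      simp [pc, h, add_mul, ← ih]
      ring
    · by_cases h2 : x = b
      · subst h2
        simp [pc, h1, mul_add, ← ih]
        ring
      · simp [pc, h1, h2, ih]

theorem pc_mem {a b : ℕ} {l : List ℕ} (h : Odd (pc a b l)) : a ∈ l ∧ b ∈ l := by
  replace h := h.pos.ne'
  induction l with
  | nil => simp [pc] at h
  | cons x l ih =>
    by_cases h1 : pc a b l = 0
    · by_cases h2 : x = a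
      · simp only [pc, h1, h2, if_true, zero_add, ne_eq, count_eq_zero, not_not] at h
        simp [h, h2]
      · simp [pc, h1, h2] at h
    · simp [ih h1]

/-- The interleaved pairs. -/
def P (l : List ℕ) : Finset (ℕ × ℕ) :=
  (l.toFinset ×ˢ l.toFinset).filter fun z => z.1 ≠ z.2 ∧ Odd (pc z.1 z.2 l)

theorem mem_P {l : List ℕ} {a b : ℕ} : (a, b) ∈ P l ↔ a ≠ b ∧ pc a b l % 2 = 1 := by
  rw [← Nat.odd_iff]
  refine Finset.mem_filter.trans ⟨And.right, fun h => ⟨?_, h⟩⟩
  simpa using pc_mem h.2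

theorem pc_swap (a b x y : ℕ) (l₁ l₂ : List ℕ) :
    pc a b (l₁ ++ x :: y :: l₂) + (if y = a ∧ x = b then 1 else 0) =
      pc a b (l₁ ++ y :: x :: l₂) + if x = a ∧ y = b then 1 else 0 := by
  simp only [pc_append, pc, count_cons, beq_iff_eq]
  rw [add_right_comm (l₂.count b)]
  by_cases h1 : x = a <;> by_cases h2 : y = b <;> by_cases h3 : y = a <;> by_cases h4 : x = b <;>
    simp only [h1, h2, h3, h4, if_true, if_false, and_self, and_true, and_false] <;> grind

theorem count_map' {f : ℕ → ℕ} {b b' : ℕ} {l : List ℕ} (h : ∀ t ∈ l, f t = b' ↔ t = b) :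
    (l.map f).count b' = l.count b := by
  induction l with
  | nil => rfl
  | cons x l ih =>
    simp [count_cons, ih fun t ht => h t (mem_cons_of_mem _ ht), h x mem_cons_self]

theorem pc_map {f : ℕ → ℕ} {a a' b b' : ℕ} {l : List ℕ} (h : ∀ t ∈ l, f t = a' ↔ t = a)
    (h' : ∀ t ∈ l, f t = b' ↔ t = b) : pc a' b' (l.map f) = pc a b l := by
  induction l with
  | nil => rfl
  | cons x l ih =>
    simp only [List.map_cons, pc, ih (fun t ht => h t (mem_cons_of_mem _ ht))
      fun t ht => h' t (mem_cons_of_mem _ ht), h x mem_cons_self,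
      count_map' fun t ht => h' t (mem_cons_of_mem _ ht)]

theorem ren_iff {x y c : ℕ} (h1 : c ≠ x) (h2 : c ≠ y) (t : ℕ) : ren y x t = c ↔ t = c := by
  unfold ren
  split_ifs <;> omega

theorem count_ren {x y : ℕ} (h : x ≠ y) (l : List ℕ) :
    (l.map (ren y x)).count x = l.count x + l.count y := by
  induction l with
  | nil => rfl
  | cons t l ih =>
    simp only [List.map_cons, count_cons, ih, ren, beq_iff_eq]
    split_ifs <;> omega

theorem pc_ren {x y c : ℕ} (h : x ≠ y) (h1 : c ≠ x) (h2 : c ≠ y) (l : List ℕ) :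
    pc x c (l.map (ren y x)) = pc x c l + pc y c l ∧
      pc c x (l.map (ren y x)) = pc c x l + pc c y l := by
  induction l with
  | nil => exact ⟨rfl, rfl⟩
  | cons t l ih =>
    simp only [List.map_cons, pc, ih, count_ren h, count_map' fun t _ => ren_iff h1 h2 t, ren]
    split_ifs <;> omega

end IntL

open IntL in
theorem int : StmtInt := by
  refine ⟨fun l₁ l₂ x y => ?_, fun l₁ l₂ x y h hd ho => ?_, fun l₁ l₂ a _ => ?_,
    fun l₁ l₂ x y h _ => ?_, fun l f hf => ?_⟩
  · refine (card_le_card (s := P _) (t := insert (x, y) (insert (y, x) (P (l₁ ++ x :: y :: l₂))))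
      ?_).trans ((card_insert_le _ _).trans (Nat.succ_le_succ (card_insert_le _ _)))
    rintro ⟨a, b⟩ hz
    have := pc_swap a b x y l₁ l₂
    simp only [Finset.mem_insert, Prod.mk.injEq, mem_P] at hz ⊢
    split_ifs at this <;> omega
  · have e := pc_add h (l₁ ++ x :: y :: l₂)
    rw [hd x (by simp), hd y (by simp)] at e
    rw [Nat.odd_iff] at ho
    have s1 := pc_swap x y x y l₁ l₂
    have s2 := pc_swap y x x y l₁ l₂
    have : P (l₁ ++ x :: y :: l₂) = insert (x, y) (insert (y, x) (P (l₁ ++ y :: x :: l₂))) := by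
      ext ⟨a, b⟩
      have := pc_swap a b x y l₁ l₂
      simp only [Finset.mem_insert, Prod.mk.injEq, mem_P]
      split_ifs at this with h1 h2 h2
      · omega
      · obtain ⟨rfl, rfl⟩ := h1
        omega
      · obtain ⟨rfl, rfl⟩ := h2
        omega
      · omega
    simp only [h, h.symm, and_self, if_true, if_false] at s1 s2
    refine Eq.trans ?_ (congrArg card this).symm
    rw [card_insert_of_notMem, card_insert_of_notMem]
    · rfl
    · rw [mem_P]; omega
    · simp only [Finset.mem_insert, Prod.mk.injEq, mem_P]; omega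
  · refine congrArg card (?_ : P _ = P _)
    ext ⟨c, d⟩
    simp only [mem_P, pc_append, pc, count_cons, beq_iff_eq, mul_add]
    split_ifs <;> omega
  · refine (card_le_card (s := P _) (t := (P (l₁ ++ x :: y :: l₂)).image
      (Prod.map (ren y x) (ren y x))) ?_).trans card_image_le
    rintro ⟨a, b⟩ hz
    obtain ⟨ab, ho⟩ := mem_P.1 hz
    have ny : ∀ c ∈ (l₁ ++ l₂).map (ren y x), c ≠ y := fun c hc => by
      obtain ⟨t, -, rfl⟩ := List.mem_map.1 hc
      unfold ren
      split_ifs <;> omega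
    have ay := ny a (pc_mem (Nat.odd_iff.2 ho)).1
    have by' := ny b (pc_mem (Nat.odd_iff.2 ho)).2
    suffices ∃ c d, (c ≠ d ∧ pc c d (l₁ ++ x :: y :: l₂) % 2 = 1) ∧ ren y x c = a ∧ ren y x d = b by
      obtain ⟨c, d, h1, h2, h3⟩ := this
      exact mem_image.2 ⟨(c, d), mem_P.2 h1, Prod.ext h2 h3⟩
    by_cases ax : a = x
    · subst ax
      rw [(pc_ren h ab.symm by' _).1] at ho
      by_cases h1 : pc a b (l₁ ++ a :: y :: l₂) % 2 = 1
      · exact ⟨a, b, ⟨ab, h1⟩, if_neg h, if_neg by'⟩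
      refine ⟨y, b, ⟨by'.symm, ?_⟩, if_pos rfl, if_neg by'⟩
      simp [pc_append, pc, h, h.symm, ab, by'.symm] at ho h1 ⊢
      omega
    by_cases bx : b = x
    · subst bx
      rw [(pc_ren h ab ay _).2] at ho
      by_cases h1 : pc a b (l₁ ++ b :: y :: l₂) % 2 = 1
      · exact ⟨a, b, ⟨ab, h1⟩, if_neg ay, if_neg h⟩
      refine ⟨a, y, ⟨ay, ?_⟩, if_neg ay, if_pos rfl⟩
      simp [pc_append, pc, h, h.symm, ab.symm, ay.symm, mul_add] at ho h1 ⊢
      omega
    refine ⟨a, b, ⟨ab, ?_⟩, if_neg ay, if_neg by'⟩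
    rw [pc_map (fun t _ => ren_iff ax ay t) fun t _ => ren_iff bx by' t] at ho
    simpa [pc_append, pc, Ne.symm ax, Ne.symm bx, ay.symm, by'.symm] using ho
  · have k : ∀ a ∈ l, ∀ b ∈ l, pc (f a) (f b) (l.map f) = pc a b l := fun a ha b hb =>
      pc_map (fun t ht => ⟨hf t ht a ha, congrArg f⟩) fun t ht => ⟨hf t ht b hb, congrArg f⟩
    have m : ∀ z ∈ P l, z.1 ∈ l ∧ z.2 ∈ l := fun z hz => pc_mem (Finset.mem_filter.1 hz).2.2
    refine (card_nbij (s := P l) (t := P (l.map f)) (Prod.map f f) ?_ ?_ ?_).symm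
    · rintro ⟨a, b⟩ hz
      obtain ⟨ha, hb⟩ := m _ hz
      exact mem_P.2 ⟨fun e => (mem_P.1 hz).1 (hf a ha b hb e), k a ha b hb ▸ (mem_P.1 hz).2⟩
    · exact fun z hz w hw e => Prod.ext (hf _ (m z hz).1 _ (m w hw).1 (congrArg Prod.fst e))
        (hf _ (m z hz).2 _ (m w hw).2 (congrArg Prod.snd e))
    · rintro ⟨a', b'⟩ hz
      obtain ⟨h1, h2⟩ := mem_P.1 hz
      obtain ⟨h3, h4⟩ := pc_mem (Nat.odd_iff.2 h2)
      obtain ⟨a, ha, rfl⟩ := List.mem_map.1 h3
      obtain ⟨b, hb, rfl⟩ := List.mem_map.1 h4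
      exact ⟨(a, b), mem_P.2 ⟨fun e => h1 (congrArg f e), k a ha b hb ▸ h2⟩, rfl⟩

end Pool.Agent.MP_d5eec5_gt.H77
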